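import Pool.Agent.W601.RP.Stm2

/-!
# Sets of coordinates without infinite antichains are finite unions of chains
-/

set_option autoImplicit false
open scoped Classical
open Filter Topology

namespace Pool.Agent.W7.RP

open Pool.Agent.W601.RP

theorem incr (R : ℕ → ℕ → Prop) (htr : ∀ t u v, R t u → R u v → R t v)
    (hfin : ∀ v, {t | R t v}.Finite) (f : ℕ → ℕ) (hf : Function.Injective f)
    (hA : ∀ E ⊆ Set.range f, E.Infinite → ∃ t ∈ E, ∃ u ∈ E, t ≠ u ∧ (R t u ∨ R u t)) :
    ∃ g : ℕ → ℕ, StrictMono g ∧ ∀ m n, m < n → R (f (g m)) (f (g n)) := by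
  have : IsTrans ℕ R := ⟨htr⟩
  obtain ⟨g, hg | hg⟩ := exists_increasing_or_nonincreasing_subseq R f
  · exact ⟨g, g.strictMono, hg⟩
  · exfalso
    have : IsTrans ℕ (fun a b => R b a) := ⟨fun a b c h1 h2 => htr _ _ _ h2 h1⟩
    obtain ⟨g', hg' | hg'⟩ :=
      exists_increasing_or_nonincreasing_subseq (fun a b => R b a) (fun n => f (g n))
    · have h1 : Set.Infinite {t | R t (f (g (g' 0)))} := by
        refine Set.infinite_of_injective_forall_mem (f := fun n : ℕ => f (g (g' (n + 1)))) ?_ ?_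
        · intro a b h
          have h2 := g'.injective (g.injective (hf h))
          omega
        · intro n
          exact hg' 0 (n + 1) (Nat.succ_pos n)
      exact h1 (hfin _)
    · obtain ⟨t, ⟨a, rfl⟩, u, ⟨b, rfl⟩, hne, hc⟩ := hA (Set.range fun n => f (g (g' n)))
        (by rintro _ ⟨n, rfl⟩; exact ⟨_, rfl⟩)
        (Set.infinite_range_of_injective fun a b h => g'.injective (g.injective (hf h)))
      rcases lt_trichotomy a b with h | h | h
      · rcases hc with hc | hc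
        · exact hg _ _ (g'.strictMono h) hc
        · exact hg' _ _ h hc
      · subst h
        exact hne rfl
      · rcases hc with hc | hc
        · exact hg' _ _ h hc
        · exact hg _ _ (g'.strictMono h) hc

/-- The branching elements of `S` are finitely many. -/
theorem branch_finite (R : ℕ → ℕ → Prop) (htr : ∀ t u v, R t u → R u v → R t v)
    (hirr : ∀ t, ¬ R t t) (hlin : ∀ t u v, R t v → R u v → t = u ∨ R t u ∨ R u t)
    (hfin : ∀ v, {t | R t v}.Finite) (S : Set ℕ)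
    (hA : ∀ E ⊆ S, E.Infinite → ∃ t ∈ E, ∃ u ∈ E, t ≠ u ∧ (R t u ∨ R u t)) :
    {s | s ∈ S ∧ ∃ t ∈ S, ∃ u ∈ S, R s t ∧ R s u ∧ t ≠ u ∧ ¬ (R t u ∨ R u t)}.Finite := by
  by_contra hB
  have hB' : {s | s ∈ S ∧ ∃ t ∈ S, ∃ u ∈ S, R s t ∧ R s u ∧ t ≠ u ∧
    ¬ (R t u ∨ R u t)}.Infinite := hB
  obtain ⟨f, hfi, hfB⟩ : ∃ f : ℕ → ℕ, Function.Injective f ∧ ∀ n, f n ∈ {s | s ∈ S ∧
      ∃ t ∈ S, ∃ u ∈ S, R s t ∧ R s u ∧ t ≠ u ∧ ¬ (R t u ∨ R u t)} :=
    ⟨fun n => (hB'.natEmbedding _ n : ℕ),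
      fun a b h => (hB'.natEmbedding _).injective (Subtype.ext h),
      fun n => (hB'.natEmbedding _ n).2⟩
  obtain ⟨g, hg, hs⟩ := incr R htr hfin f hfi (fun E hE hEi => hA E (fun x hx => by
    obtain ⟨n, rfl⟩ := hE hx
    exact (hfB n).1) hEi)
  set s : ℕ → ℕ := fun n => f (g n) with hsdef
  have hsinj : Function.Injective s := fun a b h => hg.injective (hfi h)
  have hr : ∀ i, ∃ r ∈ S, R (s i) r ∧ ∀ j, r ≠ s j ∧ ¬ R r (s j) := by
    intro i
    obtain ⟨-, t, ht, u, hu, h1, h2, h3, h4⟩ := hfB (g i)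
    by_cases hT : ∀ j, t ≠ s j ∧ ¬ R t (s j)
    · exact ⟨t, ht, h1, hT⟩
    by_cases hU : ∀ j, u ≠ s j ∧ ¬ R u (s j)
    · exact ⟨u, hu, h2, hU⟩
    exfalso
    push Not at hT hU
    obtain ⟨j, hj⟩ := hT
    obtain ⟨k, hk⟩ := hU
    have hj' : R t (s (max j k + 1)) := by
      have h5 : R (s j) (s (max j k + 1)) := hs _ _ (by omega)
      by_cases h6 : t = s j
      · rw [h6]; exact h5
      · exact htr _ _ _ (hj h6) h5
    have hk' : R u (s (max j k + 1)) := by
      have h5 : R (s k) (s (max j k + 1)) := hs _ _ (by omega)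
      by_cases h6 : u = s k
      · rw [h6]; exact h5
      · exact htr _ _ _ (hk h6) h5
    rcases hlin _ _ _ hj' hk' with h | h
    · exact h3 h
    · exact h4 h
  choose r hrS hrs hrn using hr
  have hrange : (Set.range r).Infinite := by
    intro hfr
    have h1 : (Set.univ : Set ℕ).Finite := by
      have h2 : (Set.univ : Set ℕ) ⊆ ⋃ v ∈ Set.range r, s ⁻¹' {t | R t v} := by
        intro i _
        simp only [Set.mem_iUnion]
        exact ⟨r i, ⟨i, rfl⟩, hrs i⟩
      exact (hfr.biUnion fun v _ => (hfin v).preimage hsinj.injOn).subset h2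
    exact Set.infinite_univ h1
  have hal : ∀ n : ℕ, ∃ a : ℕ, r a = (hrange.natEmbedding _ n : ℕ) :=
    fun n => (hrange.natEmbedding _ n).2
  choose a ha using hal
  have hainj : Function.Injective a := by
    intro m n h
    have h1 : r (a m) = r (a n) := by rw [h]
    rw [ha, ha] at h1
    exact (hrange.natEmbedding _).injective (Subtype.ext h1)
  have hrainj : Function.Injective fun n => r (a n) := by
    intro m n h
    have h1 : r (a m) = r (a n) := h
    rw [ha, ha] at h1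
    exact (hrange.natEmbedding _).injective (Subtype.ext h1)
  obtain ⟨g', hg', hr'⟩ := incr R htr hfin (fun n => r (a n)) hrainj
    (fun E hE hEi => hA E (fun x hx => by
      obtain ⟨n, rfl⟩ := hE hx
      exact hrS _) hEi)
  have h1 : Set.Infinite {t | R t (r (a (g' 0)))} := by
    refine Set.infinite_of_injective_forall_mem (f := fun n : ℕ => s (a (g' (n + 1)))) ?_ ?_
    · intro m n h
      have h2 := hg'.injective (hainj (hsinj h))
      omega
    · intro n
      have h2 := hr' 0 (n + 1) (Nat.succ_pos n)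
      have h3 := hrs (a (g' (n + 1)))
      rcases hlin _ _ _ h2 h3 with h | h | h
      · exact absurd h (hrn _ _).1
      · exact absurd h (hrn _ _).2
      · exact h
  exact h1 (hfin _)

theorem dich : S_NODE → S_DICH := by
  rintro ⟨-, -, -, -, htr, hirr, hlin, hfin⟩ S hS
  have hA : ∀ E ⊆ S, E.Infinite → ∃ t ∈ E, ∃ u ∈ E, t ≠ u ∧ (Lt t u ∨ Lt u t) := hS
  have hBf := branch_finite Lt htr hirr hlin hfin S hA
  set B := {s | s ∈ S ∧ ∃ t ∈ S, ∃ u ∈ S, Lt s t ∧ Lt s u ∧ t ≠ u ∧ ¬ (Lt t u ∨ Lt u t)} with hB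
  -- minimal elements of `S \ B`
  have hMf : {m | (m ∈ S ∧ m ∉ B) ∧ ∀ t, t ∈ S → t ∉ B → ¬ Lt t m}.Finite := by
    by_contra hM
    obtain ⟨t, ht, u, hu, hne, hc⟩ := hA _ (fun x hx => hx.1.1) hM
    rcases hc with hc | hc
    · exact hu.2 t ht.1.1 ht.1.2 hc
    · exact ht.2 u hu.1.1 hu.1.2 hc
  set Mn := {m | (m ∈ S ∧ m ∉ B) ∧ ∀ t, t ∈ S → t ∉ B → ¬ Lt t m} with hMn
  have hcov : ∀ n : ℕ, ∀ a, a ∈ S → a ∉ B → {t | Lt t a}.ncard = n →
      ∃ m ∈ Mn, a = m ∨ Lt m a := by
    intro n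
    induction n using Nat.strong_induction_on with
    | _ n ih =>
      intro a ha haB hn
      by_cases h : ∀ t, t ∈ S → t ∉ B → ¬ Lt t a
      · exact ⟨a, ⟨⟨ha, haB⟩, h⟩, Or.inl rfl⟩
      · push Not at h
        obtain ⟨t, ht, htB, hta⟩ := h
        have hlt : {v | Lt v t}.ncard < n := by
          rw [← hn]
          refine Set.ncard_lt_ncard ⟨fun v hv => htr _ _ _ hv hta, fun hsub => ?_⟩ (hfin a)
          exact hirr t (hsub hta)
        obtain ⟨m, hm, hmt⟩ := ih _ hlt t ht htB rfl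
        refine ⟨m, hm, Or.inr ?_⟩
        rcases hmt with rfl | hmt
        · exact hta
        · exact htr _ _ _ hmt hta
  refine ⟨hBf.toFinset.image (fun b => ({b} : Set ℕ)) ∪
    hMf.toFinset.image (fun m => {t | t ∈ S ∧ (t = m ∨ Lt m t)}), ?_, ?_⟩
  · intro C hC
    rw [Finset.mem_union, Finset.mem_image, Finset.mem_image] at hC
    rcases hC with ⟨b, -, rfl⟩ | ⟨m, hm, rfl⟩
    · intro t ht u hu hne
      exact absurd ((Set.mem_singleton_iff.1 ht).trans (Set.mem_singleton_iff.1 hu).symm) hne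
    · have hm' : m ∈ Mn := (Set.Finite.mem_toFinset _).1 hm
      rintro t ⟨htS, ht⟩ u ⟨huS, hu⟩ hne
      rcases ht with rfl | ht
      · rcases hu with rfl | hu
        · exact absurd rfl hne
        · exact Or.inl hu
      · rcases hu with rfl | hu
        · exact Or.inr ht
        · by_contra hc
          exact hm'.1.2 ⟨hm'.1.1, t, htS, u, huS, ht, hu, hne, hc⟩
  · intro s hs
    simp only [Set.mem_iUnion]
    by_cases hsB : s ∈ B
    · exact ⟨{s}, Finset.mem_union_left _ (Finset.mem_image.2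
        ⟨s, (Set.Finite.mem_toFinset _).2 hsB, rfl⟩), rfl⟩
    · obtain ⟨m, hm, hms⟩ := hcov _ s hs hsB rfl
      exact ⟨_, Finset.mem_union_right _ (Finset.mem_image.2
        ⟨m, (Set.Finite.mem_toFinset _).2 hm, rfl⟩), hs, hms⟩

end Pool.Agent.W7.RP
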